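import Mathlib

/-!
# The Tate-Shafarevich group of an elliptic curve over `ℚ`

Classes in `H ^ 1 (ℚ, W)` are represented by continuous 1-cocycles of the absolute Galois group of
`ℚ` with values in the points of `W` over the algebraic numbers. (As in the file
`Pool.Agent.W262.SH.Stm` of helper262.)
-/

namespace Pool.Agent.TH344.SH

open WeierstrassCurve

open scoped Classical

/-- the algebraic numbers -/
abbrev QB : Type := AlgebraicClosure ℚ

/-- the absolute Galois group of `ℚ` -/
abbrev GQ : Type := QB ≃ₐ[ℚ] QB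

/-- the group of the points of `W` over the extension `L` of `ℚ` -/
abbrev Points (W : WeierstrassCurve ℚ) (L : Type) [Field L] [Algebra ℚ L] : Type :=
  (W.baseChange L).toAffine.Point

/-- the map on the points given by a homomorphism of fields -/
noncomputable def pmap (W : WeierstrassCurve ℚ) {F L : Type} [Field F] [Field L] [Algebra ℚ F]
    [Algebra ℚ L] (φ : F →ₐ[ℚ] L) : Points W F →+ Points W L :=
  WeierstrassCurve.Affine.Point.map (W' := W.toAffine) φ

/-- continuous (that is locally constant) 1-cocycles -/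
def IsCocycle (W : WeierstrassCurve ℚ) (f : GQ → Points W QB) : Prop :=
  IsLocallyConstant f ∧ ∀ σ τ, f (σ * τ) = f σ + pmap W σ.toAlgHom (f τ)

/-- coboundaries `σ ↦ σ P - P` -/
def IsCoboundary (W : WeierstrassCurve ℚ) (f : GQ → Points W QB) : Prop :=
  ∃ P, ∀ σ, f σ = pmap W σ.toAlgHom P - P

/-- The restriction of the cocycle `f` to the absolute Galois group of the completion `K` of `ℚ`
(`K` is `ℚ_p` or `ℝ`) is a coboundary: for every embedding `ι` of the algebraic numbers in an
algebraic closure of `K` there is a point `P` over this algebraic closure with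
`ι (f (τ|QB)) = τ P - P` for every automorphism `τ` of the algebraic closure over `K`. -/
def LocallyTrivial (W : WeierstrassCurve ℚ) (K : Type) [Field K] [Algebra ℚ K]
    (f : GQ → Points W QB) : Prop :=
  ∀ ι : QB →ₐ[ℚ] AlgebraicClosure K, ∃ P : Points W (AlgebraicClosure K),
    ∀ (τ : AlgebraicClosure K ≃ₐ[K] AlgebraicClosure K) (σ : GQ),
      (τ.toAlgHom.restrictScalars ℚ).comp ι = ι.comp σ.toAlgHom →
      pmap W ι (f σ) = pmap W (τ.toAlgHom.restrictScalars ℚ) P - P

/-- cocycles that are trivial at all places of `ℚ` -/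
def IsShaCocycle (W : WeierstrassCurve ℚ) (f : GQ → Points W QB) : Prop :=
  IsCocycle W f ∧ (∀ (p : ℕ) [Fact p.Prime], LocallyTrivial W ℚ_[p] f) ∧ LocallyTrivial W ℝ f

/-- the cocycles that are trivial at all places of `ℚ` -/
noncomputable def shaCocycles (W : WeierstrassCurve ℚ) : AddSubgroup (GQ → Points W QB) where
  carrier := {f | IsShaCocycle W f}
  zero_mem' := by
    refine ⟨⟨IsLocallyConstant.const _, fun σ τ => by simp⟩, ?_, ?_⟩
    · intro p _ ι
      exact ⟨0, fun τ σ _ => by simp⟩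
    · intro ι
      exact ⟨0, fun τ σ _ => by simp⟩
  add_mem' := by
    rintro f g ⟨⟨hf1, hf2⟩, hf3, hf4⟩ ⟨⟨hg1, hg2⟩, hg3, hg4⟩
    refine ⟨⟨hf1.add hg1, fun σ τ => ?_⟩, ?_, ?_⟩
    · simp only [Pi.add_apply, hf2, hg2, map_add]
      abel
    · intro p _ ι
      obtain ⟨P, hP⟩ := hf3 p ι
      obtain ⟨Q, hQ⟩ := hg3 p ι
      refine ⟨P + Q, fun τ σ h => ?_⟩
      simp only [Pi.add_apply, map_add, hP τ σ h, hQ τ σ h]
      abel
    · intro ι
      obtain ⟨P, hP⟩ := hf4 ι
      obtain ⟨Q, hQ⟩ := hg4 ι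
      refine ⟨P + Q, fun τ σ h => ?_⟩
      simp only [Pi.add_apply, map_add, hP τ σ h, hQ τ σ h]
      abel
  neg_mem' := by
    rintro f ⟨⟨hf1, hf2⟩, hf3, hf4⟩
    refine ⟨⟨hf1.neg, fun σ τ => ?_⟩, ?_, ?_⟩
    · simp only [Pi.neg_apply, hf2, map_neg]
      abel
    · intro p _ ι
      obtain ⟨P, hP⟩ := hf3 p ι
      refine ⟨-P, fun τ σ h => ?_⟩
      simp only [Pi.neg_apply, map_neg, hP τ σ h]
      abel
    · intro ι
      obtain ⟨P, hP⟩ := hf4 ι
      refine ⟨-P, fun τ σ h => ?_⟩
      simp only [Pi.neg_apply, map_neg, hP τ σ h]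
      abel

/-- the coboundaries -/
noncomputable def coboundaries (W : WeierstrassCurve ℚ) : AddSubgroup (GQ → Points W QB) where
  carrier := {f | IsCoboundary W f}
  zero_mem' := ⟨0, fun σ => by simp⟩
  add_mem' := by
    rintro f g ⟨P, hP⟩ ⟨Q, hQ⟩
    refine ⟨P + Q, fun σ => ?_⟩
    simp only [Pi.add_apply, map_add, hP, hQ]
    abel
  neg_mem' := by
    rintro f ⟨P, hP⟩
    refine ⟨-P, fun σ => ?_⟩
    simp only [Pi.neg_apply, map_neg, hP]
    abel

/-- the Tate-Shafarevich group of `W` over `ℚ`: the cocycles that are trivial at all places modulo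
the coboundaries -/
abbrev Sha (W : WeierstrassCurve ℚ) : Type :=
  shaCocycles W ⧸ (coboundaries W).addSubgroupOf (shaCocycles W)

/-- the elements `c` of the Tate-Shafarevich group with `n c = 0` -/
abbrev ShaTorsion (W : WeierstrassCurve ℚ) (n : ℕ) : Type := {c : Sha W // n • c = 0}

end Pool.Agent.TH344.SH
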