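import Pool.Agent.TH344.SH.Loc

/-!
The rank, the Tate-Shafarevich group and the 2-Selmer group: `2 ^ rank * #Ш[2] ≤ #Sel` for the curves
`y² = x³ + A x + B` with three integer roots.
-/

set_option autoImplicit false
set_option linter.all false

open WeierstrassCurve WeierstrassCurve.Affine
open scoped Classical
open Pool.Agent.W307.SE Pool.Agent.W307.RT
open Pool.Agent.W309.TD (Pt act act_zero act_some act_inj act_act two_act rs incl rs_apply
  rs_act_incl exists_root compare au au_apply exists_restrict)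

namespace Pool.Agent.TH344.SH

/-- the inclusion of the rational points -/
noncomputable def inc (W : WeierstrassCurve ℚ) : W.toAffine.Point →+ Points W QB :=
  WeierstrassCurve.Affine.Point.map (W' := W) (Algebra.ofId ℚ QB)

lemma inc_some (W : WeierstrassCurve ℚ) {x y : ℚ} (hxy : W.toAffine.Nonsingular x y) :
    ∃ h, inc W (Point.some x y hxy) = Point.some (algebraMap ℚ QB x) (algebraMap ℚ QB y) h :=
  ⟨_, rfl⟩

lemma inc_inj (W : WeierstrassCurve ℚ) : Function.Injective (inc W) :=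
  Point.map_injective (W' := W) (Algebra.ofId ℚ QB)

lemma inc_fix (W : WeierstrassCurve ℚ) (σ : GQ) (P : W.toAffine.Point) :
    pmap W σ.toAlgHom (inc W P) = inc W P := by
  rcases P with _ | ⟨x, y, hxy⟩
  · rfl
  · obtain ⟨h, hh⟩ := inc_some W hxy
    rw [hh]
    obtain ⟨h', hh'⟩ := act_some W σ.toAlgHom h
    refine hh'.trans ?_
    have e1 : σ.toAlgHom (algebraMap ℚ QB x) = algebraMap ℚ QB x := σ.commutes x
    have e2 : σ.toAlgHom (algebraMap ℚ QB y) = algebraMap ℚ QB y := σ.commutes y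
    simp only [e1, e2]

lemma exists_inc (W : WeierstrassCurve ℚ) (Q : Points W QB)
    (hQ : ∀ σ : GQ, pmap W σ.toAlgHom Q = Q) : ∃ P, inc W P = Q := by
  haveI := galQB
  rcases Q with _ | ⟨x, y, hxy⟩
  · exact ⟨0, map_zero _⟩
  · have hx : x ∈ Set.range (algebraMap ℚ QB) := by
      rw [InfiniteGalois.mem_range_algebraMap_iff_fixed]
      intro τ
      obtain ⟨h, hh⟩ := act_some W τ.toAlgHom hxy
      have := hh.symm.trans (hQ τ)
      exact (Point.some.inj this).1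
    have hy : y ∈ Set.range (algebraMap ℚ QB) := by
      rw [InfiniteGalois.mem_range_algebraMap_iff_fixed]
      intro τ
      obtain ⟨h, hh⟩ := act_some W τ.toAlgHom hxy
      have := hh.symm.trans (hQ τ)
      exact (Point.some.inj this).2
    obtain ⟨x', rfl⟩ := hx
    obtain ⟨y', rfl⟩ := hy
    have hxy' : W.toAffine.Nonsingular x' y' := by
      have := (W.toAffine.baseChange_nonsingular (Algebra.ofId ℚ QB).injective x' y').1 hxy
      exact this
    exact ⟨Point.some x' y' hxy', rfl⟩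

/-- coboundaries are trivial at all places -/
lemma cob_sha (W : WeierstrassCurve ℚ) (R : Points W QB) :
    IsShaCocycle W (fun σ => pmap W σ.toAlgHom R - R) := by
  haveI := galQB
  have hloc : ∀ (K : Type) [Field K] [Algebra ℚ K],
      LocallyTrivial W K (fun σ => pmap W σ.toAlgHom R - R) := by
    intro K _ _ ι
    refine ⟨pmap W ι R, fun τ σ hc => ?_⟩
    have h4 : act W ι (act W σ.toAlgHom R) =
        act W (τ.toAlgHom.restrictScalars ℚ) (act W ι R) := by
      rw [act_act, act_act, ← hc]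
    show act W ι (act W σ.toAlgHom R - R) = _
    rw [map_sub, h4]
    rfl
  refine ⟨?_, fun p _ => hloc _, hloc _⟩
  have := Pool.Agent.W309.TD.cob_isCoc (K := ℚ) (Ω := QB) W R
  exact ⟨this.lc, this.mul⟩

variable {A B e1 e2 e3 : ℤ}

/-- the cocycles of the proof -/
def GoodC (A B : ℤ) (f : GQ → Points (Sh A B) QB) : Prop :=
  IsShaCocycle (Sh A B) f ∧ ∀ σ, f σ + f σ = 0

lemma goodC_add {f g : GQ → Points (Sh A B) QB} (hf : GoodC A B f) (hg : GoodC A B g) :
    GoodC A B (f + g) := by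
  refine ⟨(shaCocycles (Sh A B)).add_mem hf.1 hg.1, fun σ => ?_⟩
  rw [Pi.add_apply, add_add_add_comm, hf.2, hg.2, add_zero]

/-- every class killed by two has a representative with values in the points of order two -/
lemma exists_good (hD : 4 * A ^ 3 + 27 * B ^ 2 ≠ 0) (h : Fac A B e1 e2 e3)
    (c : Sha (Sh A B)) (hc : 2 • c = 0) :
    ∃ f : shaCocycles (Sh A B), GoodC A B f.1 ∧ QuotientAddGroup.mk f = c := by
  obtain ⟨f0, rfl⟩ := QuotientAddGroup.mk_surjective c
  have h1 : 2 • f0 ∈ (coboundaries (Sh A B)).addSubgroupOf (shaCocycles (Sh A B)) := by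
    rw [← QuotientAddGroup.eq_zero_iff]
    exact hc
  rw [AddSubgroup.mem_addSubgroupOf] at h1
  obtain ⟨Q, hQ⟩ := h1
  obtain ⟨R, hR⟩ := halve_sep (isR hD h QB) Q
  have hcob := cob_sha (Sh A B) R
  have hcob' : (fun σ : GQ => pmap (Sh A B) σ.toAlgHom R - R) ∈ shaCocycles (Sh A B) := hcob
  refine ⟨f0 - ⟨_, hcob'⟩, ⟨(shaCocycles (Sh A B)).sub_mem f0.2 hcob', fun σ => ?_⟩, ?_⟩
  · have h2 := hQ σ
    show (f0.1 σ - (pmap (Sh A B) σ.toAlgHom R - R)) + (f0.1 σ - (pmap (Sh A B) σ.toAlgHom R - R)) = 0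
    have h3 : f0.1 σ + f0.1 σ = pmap (Sh A B) σ.toAlgHom Q - Q := by
      rw [← h2, ← two_nsmul]; rfl
    have h4 : (f0.1 σ - (pmap (Sh A B) σ.toAlgHom R - R)) +
        (f0.1 σ - (pmap (Sh A B) σ.toAlgHom R - R)) =
        (f0.1 σ + f0.1 σ) - (pmap (Sh A B) σ.toAlgHom (R + R) - (R + R)) := by
      rw [map_add]; abel
    rw [h4, hR, h3, sub_self]
  · rw [QuotientAddGroup.eq, AddSubgroup.mem_addSubgroupOf]
    have e : (-(f0 - ⟨_, hcob'⟩) + f0 : shaCocycles (Sh A B)) =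
        ⟨fun σ => pmap (Sh A B) σ.toAlgHom R - R, hcob'⟩ := by abel
    rw [e]
    exact ⟨R, fun σ => rfl⟩

/-- the Kummer cocycle of a rational point -/
lemma exists_kum (hD : 4 * A ^ 3 + 27 * B ^ 2 ≠ 0) (h : Fac A B e1 e2 e3)
    (P : (Sh A B).toAffine.Point) : ∃ H : Points (Sh A B) QB, H + H = inc (Sh A B) P ∧
      GoodC A B (fun σ => pmap (Sh A B) σ.toAlgHom H - H) := by
  obtain ⟨H, hH⟩ := halve_sep (isR hD h QB) (inc (Sh A B) P)
  refine ⟨H, hH, cob_sha _ H, fun σ => ?_⟩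
  show (pmap (Sh A B) σ.toAlgHom H - H) + (pmap (Sh A B) σ.toAlgHom H - H) = 0
  rw [sub_add_sub_comm, ← map_add, hH, inc_fix, sub_self]

/-- the doubles of the rational points -/
noncomputable def dbl (W : WeierstrassCurve ℚ) : AddSubgroup W.toAffine.Point :=
  (DistribSMul.toAddMonoidHom W.toAffine.Point (2 : ℕ)).range

lemma mem_dbl (W : WeierstrassCurve ℚ) (P : W.toAffine.Point) :
    P ∈ dbl W ↔ ∃ Q, Q + Q = P := by
  unfold dbl
  rw [AddMonoidHom.mem_range]
  constructor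
  · rintro ⟨Q, hQ⟩
    exact ⟨Q, by rw [← hQ, ← two_nsmul]; rfl⟩
  · rintro ⟨Q, hQ⟩
    exact ⟨Q, by rw [← hQ, ← two_nsmul]; rfl⟩

/-- the injection -/
lemma exists_inj (hD : 4 * A ^ 3 + 27 * B ^ 2 ≠ 0) (h : Fac A B e1 e2 e3) :
    ∃ Ψ : ShaTorsion (Sh A B) 2 × ((Sh A B).toAffine.Point ⧸ dbl (Sh A B)) → SelR A B,
      Function.Injective Ψ := by
  choose f hf hfc using fun c : ShaTorsion (Sh A B) 2 => exists_good hD h c.1 c.2
  choose H hH hHg using exists_kum hD h
  have hg : ∀ (c : ShaTorsion (Sh A B) 2) (P : (Sh A B).toAffine.Point),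
      GoodC A B ((f c).1 + fun σ => pmap (Sh A B) σ.toAlgHom (H P) - H P) :=
    fun c P => goodC_add (hf c) (hHg P)
  choose d hd using fun (c : ShaTorsion (Sh A B) 2) (P : (Sh A B).toAffine.Point) =>
    exists_rep hD h (hg c P).1.1 (hg c P).2
  refine ⟨fun x => ⟨d x.1 x.2.out, rep_sel hD h (hg x.1 x.2.out).1 (hg x.1 x.2.out).2
    (hd x.1 x.2.out)⟩, ?_⟩
  rintro ⟨c, x⟩ ⟨c', x'⟩ hxx
  have h1 : d c x.out = d c' x'.out := congrArg Subtype.val hxx
  have h2 := rep_inj hD h (hg c x.out).2 (hg c' x'.out).2 (hd c x.out)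
    (by rw [h1]; exact hd c' x'.out)
  -- the classes are equal
  have h3 : c = c' := by
    apply Subtype.ext
    rw [← hfc c, ← hfc c', QuotientAddGroup.eq, AddSubgroup.mem_addSubgroupOf]
    refine ⟨H x.out - H x'.out, fun σ => ?_⟩
    have h4 := congrFun h2 σ
    simp only [Pi.add_apply] at h4
    show -(f c).1 σ + (f c').1 σ = _
    rw [map_sub]
    have h5 : (f c').1 σ = (f c).1 σ + (pmap (Sh A B) σ.toAlgHom (H x.out) - H x.out) -
        (pmap (Sh A B) σ.toAlgHom (H x'.out) - H x'.out) := by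
      rw [h4]; abel
    rw [h5]
    abel
  subst h3
  have h4 : ∀ σ : GQ, pmap (Sh A B) σ.toAlgHom (H x.out - H x'.out) = H x.out - H x'.out := by
    intro σ
    have h5 := congrFun h2 σ
    simp only [Pi.add_apply, add_right_inj] at h5
    rw [map_sub]
    have h6 : pmap (Sh A B) σ.toAlgHom (H x.out) =
        (pmap (Sh A B) σ.toAlgHom (H x'.out) - H x'.out) + H x.out := by
      rw [← h5]; abel
    rw [h6]; abel
  obtain ⟨P, hP⟩ := exists_inc _ _ h4
  have h5 : x = x' := by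
    have h6 : P + P = x.out - x'.out := by
      apply inc_inj
      rw [map_add, hP, map_sub, ← hH, ← hH]
      abel
    have h7 : (QuotientAddGroup.mk x'.out : (Sh A B).toAffine.Point ⧸ dbl (Sh A B)) =
        QuotientAddGroup.mk x.out := by
      rw [QuotientAddGroup.eq, mem_dbl]
      exact ⟨P, by rw [h6]; abel⟩
    rw [QuotientAddGroup.out_eq', QuotientAddGroup.out_eq'] at h7
    exact h7.symm
  rw [h5]

/-- the rank and the index of the doubles -/
lemma rank_le (hD : 4 * A ^ 3 + 27 * B ^ 2 ≠ 0) (h : Fac A B e1 e2 e3)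
    [Finite ((Sh A B).toAffine.Point ⧸ dbl (Sh A B))] :
    2 ^ Module.finrank ℤ (Sh A B).toAffine.Point ≤
      Nat.card ((Sh A B).toAffine.Point ⧸ dbl (Sh A B)) := by
  have hfg : AddGroup.FG (Sh A B).toAffine.Point := by
    obtain ⟨hs, hA, hB⟩ := Pool.Agent.W402.FK.coef A B e1 e2 e3 h
    obtain ⟨d12, d13, d23⟩ := Pool.Agent.W402.FK.dist A B e1 e2 e3 hD h
    have hs' : (e1 : ℚ) + e2 + e3 = 0 := by exact_mod_cast congrArg (Int.cast : ℤ → ℚ) hs
    have hW : Sh A B = Pool.Agent.H437R2.Man.MW.crv (-(e1 : ℚ)) (-(e2 : ℚ)) (-(e3 : ℚ)) := by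
      apply WeierstrassCurve.ext
      · rfl
      · show (0 : ℚ) = -(e1 : ℚ) + -(e2 : ℚ) + -(e3 : ℚ)
        linear_combination hs'
      · rfl
      · show (A : ℚ) = -(e1 : ℚ) * -(e2 : ℚ) + -(e1 : ℚ) * -(e3 : ℚ) + -(e2 : ℚ) * -(e3 : ℚ)
        rw [hA]
        push_cast
        ring
      · show (B : ℚ) = -(e1 : ℚ) * -(e2 : ℚ) * -(e3 : ℚ)
        rw [hB]
        push_cast
        ring
    rw [hW]
    have q12 : -(e1 : ℚ) ≠ -(e2 : ℚ) := fun h => d12 (by exact_mod_cast neg_injective h)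
    have q13 : -(e1 : ℚ) ≠ -(e3 : ℚ) := fun h => d13 (by exact_mod_cast neg_injective h)
    have q23 : -(e2 : ℚ) ≠ -(e3 : ℚ) := fun h => d23 (by exact_mod_cast neg_injective h)
    exact Pool.Agent.H437R2.Man.MW.pt_fg q12 q13 q23
  haveI := Fintype.ofFinite ((Sh A B).toAffine.Point ⧸ dbl (Sh A B))
  set T : Finset (Sh A B).toAffine.Point :=
    (Finset.univ : Finset ((Sh A B).toAffine.Point ⧸ dbl (Sh A B))).image Quotient.out with hT
  have hTc : T.card = Nat.card ((Sh A B).toAffine.Point ⧸ dbl (Sh A B)) := by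
    rw [hT, Finset.card_image_of_injective _ Quotient.out_injective, Finset.card_univ,
      Nat.card_eq_fintype_card]
    rfl
  refine (Pool.Agent.W505.RK.rkb _ hfg _ T le_rfl ?_).trans hTc.le
  intro g
  refine ⟨(QuotientAddGroup.mk g : (Sh A B).toAffine.Point ⧸ dbl (Sh A B)).out,
    Finset.mem_image.2 ⟨_, Finset.mem_univ _, rfl⟩, ?_⟩
  have h1 : (QuotientAddGroup.mk (QuotientAddGroup.mk g :
      (Sh A B).toAffine.Point ⧸ dbl (Sh A B)).out : (Sh A B).toAffine.Point ⧸ dbl (Sh A B)) =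
        QuotientAddGroup.mk g := QuotientAddGroup.out_eq' _
  rw [QuotientAddGroup.eq, mem_dbl] at h1
  obtain ⟨q, hq⟩ := h1
  exact ⟨q, by rw [hq]; abel⟩

/-- **the main comparison** -/
theorem sha_sel (hD : 4 * A ^ 3 + 27 * B ^ 2 ≠ 0) (h : Fac A B e1 e2 e3)
    (hfin : (SelR A B).Finite) :
    Finite (ShaTorsion (Sh A B) 2) ∧
      2 ^ Module.finrank ℤ (Sh A B).toAffine.Point * Nat.card (ShaTorsion (Sh A B) 2) ≤
        (SelR A B).ncard := by
  obtain ⟨Ψ, hΨ⟩ := exists_inj hD h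
  haveI : Finite (SelR A B) := hfin
  haveI hf := Finite.of_injective Ψ hΨ
  haveI : Finite (ShaTorsion (Sh A B) 2) :=
    Finite.of_injective (fun c => ((c, 0) : ShaTorsion (Sh A B) 2 ×
      ((Sh A B).toAffine.Point ⧸ dbl (Sh A B)))) (fun c c' h => (Prod.ext_iff.1 h).1)
  haveI : Finite ((Sh A B).toAffine.Point ⧸ dbl (Sh A B)) :=
    Finite.of_injective (fun c => ((⟨0, by simp⟩, c) : ShaTorsion (Sh A B) 2 ×
      ((Sh A B).toAffine.Point ⧸ dbl (Sh A B)))) (fun c c' h => (Prod.ext_iff.1 h).2)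
  refine ⟨inferInstance, ?_⟩
  calc 2 ^ Module.finrank ℤ (Sh A B).toAffine.Point * Nat.card (ShaTorsion (Sh A B) 2)
      ≤ Nat.card ((Sh A B).toAffine.Point ⧸ dbl (Sh A B)) * Nat.card (ShaTorsion (Sh A B) 2) :=
        Nat.mul_le_mul_right _ (rank_le hD h)
    _ = Nat.card (ShaTorsion (Sh A B) 2 × ((Sh A B).toAffine.Point ⧸ dbl (Sh A B))) := by
        rw [Nat.card_prod, mul_comm]
    _ ≤ Nat.card (SelR A B) := Nat.card_le_card_of_injective Ψ hΨ
    _ = (SelR A B).ncard := Nat.card_coe_set_eq _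

/-- the elements killed by four -/
theorem four_le {G : Type*} [AddCommGroup G] (hf : Finite {c : G // 2 • c = 0}) :
    Finite {c : G // 4 • c = 0} ∧
      Nat.card {c : G // 4 • c = 0} ≤ Nat.card {c : G // 2 • c = 0} ^ 2 := by
  have hm : ∀ c : {c : G // 4 • c = 0}, 2 • (2 • c.1) = 0 := by
    intro c
    rw [smul_smul]
    exact c.2
  -- representatives of the fibres of the doubling map
  have key : ∀ c : {c : G // 2 • c = 0}, ∃ r : G, (∃ x : G, 2 • x = c.1) → 2 • r = c.1 := by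
    intro c
    by_cases hx : ∃ x : G, 2 • x = c.1
    · obtain ⟨x, hx'⟩ := hx
      exact ⟨x, fun _ => hx'⟩
    · exact ⟨0, fun h => absurd h hx⟩
  choose r hr using key
  have hsub : ∀ c : {c : G // 4 • c = 0}, 2 • (c.1 - r ⟨2 • c.1, hm c⟩) = 0 := by
    intro c
    rw [smul_sub, hr ⟨2 • c.1, hm c⟩ ⟨c.1, rfl⟩, sub_self]
  let φ : {c : G // 4 • c = 0} → {c : G // 2 • c = 0} × {c : G // 2 • c = 0} :=
    fun c => (⟨2 • c.1, hm c⟩, ⟨c.1 - r ⟨2 • c.1, hm c⟩, hsub c⟩)
  have hφ : Function.Injective φ := by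
    intro c c' h
    have h1 : (⟨2 • c.1, hm c⟩ : {c : G // 2 • c = 0}) = ⟨2 • c'.1, hm c'⟩ := (Prod.ext_iff.1 h).1
    have h2 : c.1 - r ⟨2 • c.1, hm c⟩ = c'.1 - r ⟨2 • c'.1, hm c'⟩ :=
      congrArg Subtype.val (Prod.ext_iff.1 h).2
    rw [h1] at h2
    exact Subtype.ext (sub_left_injective h2)
  refine ⟨Finite.of_injective φ hφ, ?_⟩
  refine (Nat.card_le_card_of_injective φ hφ).trans ?_
  rw [Nat.card_prod, pow_two]

end Pool.Agent.TH344.SH
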