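import Mathlib

/-!
Group law formulas for the curves `y ^ 2 = (x - a) (x - b) (x - c)` over a field in which `2 ≠ 0`:
halving of points and the functions `((x - a) ^ 2 - (a - b) (a - c)) / (2 y)` attached to the points
of order two. (Adapted from the file `Pool.Agent.W309.TD.Curve` of helper309 for Legendre curves.)
-/

set_option autoImplicit false
set_option linter.all false

open WeierstrassCurve WeierstrassCurve.Affine

namespace Pool.Agent.TH344.SH

/-- The Weierstrass curve `y ^ 2 = (x - a) (x - b) (x - c)`. -/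
structure IsR {F : Type*} [Field F] (W : Affine F) (a b c : F) : Prop where
  a1 : W.a₁ = 0
  a2 : W.a₂ = -(a + b + c)
  a3 : W.a₃ = 0
  a4 : W.a₄ = a * b + a * c + b * c
  a6 : W.a₆ = -(a * b * c)
  two : (2 : F) ≠ 0
  nab : a ≠ b
  nac : a ≠ c
  nbc : b ≠ c

variable {F : Type*} [Field F] {W : Affine F} {a b c : F}

theorem IsR.swap (h : IsR W a b c) : IsR W b a c :=
  ⟨h.a1, by rw [h.a2]; ring, h.a3, by rw [h.a4]; ring, by rw [h.a6]; ring, h.two, h.nab.symm,
    h.nbc, h.nac⟩

theorem IsR.rot (h : IsR W a b c) : IsR W c a b :=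
  ⟨h.a1, by rw [h.a2]; ring, h.a3, by rw [h.a4]; ring, by rw [h.a6]; ring, h.two, h.nac.symm,
    h.nbc.symm, h.nab⟩

theorem IsR.equation (h : IsR W a b c) {x y : F} :
    W.Equation x y ↔ y ^ 2 = (x - a) * (x - b) * (x - c) := by
  rw [W.equation_iff, h.a1, h.a2, h.a3, h.a4, h.a6]
  constructor <;> intro h' <;> linear_combination h'

theorem IsR.nonsingular (h : IsR W a b c) {x y : F} :
    W.Nonsingular x y ↔ y ^ 2 = (x - a) * (x - b) * (x - c) := by
  rw [W.nonsingular_iff, h.equation, h.a1, h.a2, h.a3, h.a4]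
  refine ⟨fun h' => h'.1, fun h' => ⟨h', ?_⟩⟩
  have n1 := sub_ne_zero.2 h.nab
  have n2 := sub_ne_zero.2 h.nac
  have n3 := sub_ne_zero.2 h.nbc
  by_cases hy : y = 0
  · left
    subst hy
    have h0 : (x - a) * (x - b) * (x - c) = 0 := by rw [← h']; ring
    intro hd
    have hd' : (x - b) * (x - c) + (x - a) * (x - c) + (x - a) * (x - b) = 0 := by
      linear_combination -hd
    rcases mul_eq_zero.1 h0 with h1 | h1
    · rcases mul_eq_zero.1 h1 with h2 | h2
      · obtain rfl : x = a := by linear_combination h2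
        have : (x - b) * (x - c) = 0 := by linear_combination hd'
        rcases mul_eq_zero.1 this with h3 | h3
        · exact n1 h3
        · exact n2 h3
      · obtain rfl : x = b := by linear_combination h2
        have : (a - x) * (x - c) = 0 := by linear_combination -hd'
        rcases mul_eq_zero.1 this with h3 | h3
        · exact n1 h3
        · exact n3 h3
    · obtain rfl : x = c := by linear_combination h1
      have : (a - x) * (b - x) = 0 := by linear_combination hd'
      rcases mul_eq_zero.1 this with h3 | h3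
      · exact n2 h3
      · exact n3 h3
  · right
    intro hd
    have : (2 : F) * y = 0 := by linear_combination hd
    rcases mul_eq_zero.1 this with h2 | h2
    · exact h.two h2
    · exact hy h2

theorem IsR.negY (h : IsR W a b c) (x y : F) : W.negY x y = -y := by
  simp [WeierstrassCurve.Affine.negY, h.a1, h.a3]

/-- The function attached to the root `a`, the other roots are `b`, `c`. -/
noncomputable def rt (a b c : F) : W.Point → F
  | .zero => 0
  | .some x y _ => ((x - a) ^ 2 - (a - b) * (a - c)) / (2 * y)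

theorem rt_comm (P : W.Point) : rt a b c P = rt a c b P := by
  rcases P with _ | ⟨x, y, hxy⟩
  · rfl
  · simp only [rt]
    rw [mul_comm (a - b) (a - c)]

theorem root_of_tor (h : IsR W a b c) {x y : F} (hP : W.Nonsingular x y) (hy : y = 0) :
    x = a ∨ x = b ∨ x = c := by
  have := h.nonsingular.1 hP
  rw [hy] at this
  have h0 : (x - a) * (x - b) * (x - c) = 0 := by rw [← this]; ring
  rcases mul_eq_zero.1 h0 with h1 | h1
  · rcases mul_eq_zero.1 h1 with h2 | h2
    · exact Or.inl (by linear_combination h2)
    · exact Or.inr (Or.inl (by linear_combination h2))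
  · exact Or.inr (Or.inr (by linear_combination h1))

variable [DecidableEq F]

/-- Addition of the point `(a, 0)`. -/
theorem add_tor (h : IsR W a b c) {x y : F} (hP : W.Nonsingular x y) (hy : y ≠ 0)
    (ha : W.Nonsingular a 0) :
    x - a ≠ 0 ∧ ∃ hQ, Point.some x y hP + Point.some a 0 ha =
      Point.some (a + (a - b) * (a - c) / (x - a))
        (-((a - b) * (a - c) * y) / (x - a) ^ 2) hQ := by
  have hxa : x ≠ a := by
    rintro rfl
    apply hy
    have := h.nonsingular.1 hP
    rw [sub_self, zero_mul, zero_mul] at this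
    exact pow_eq_zero_iff (two_ne_zero) |>.1 this
  have hxa' : x - a ≠ 0 := sub_ne_zero.2 hxa
  refine ⟨hxa', ?_⟩
  rw [Point.add_of_X_ne hxa]
  have he := h.nonsingular.1 hP
  have h1 : W.addX x a (W.slope x a y 0) =
      a + (a - b) * (a - c) / (x - a) := by
    rw [slope_of_X_ne hxa, addX, h.a1, h.a2]
    field_simp
    linear_combination he
  have h2 : W.addY x a y (W.slope x a y 0) =
      -((a - b) * (a - c) * y) / (x - a) ^ 2 := by
    rw [addY, negAddY, h1, slope_of_X_ne hxa, h.negY]
    field_simp
    ring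
  have hh : W.Nonsingular (a + (a - b) * (a - c) / (x - a))
      (-((a - b) * (a - c) * y) / (x - a) ^ 2) := by
    rw [← h1, ← h2]
    exact nonsingular_add hP ha fun hxy => hxa hxy.1
  refine ⟨hh, ?_⟩
  simp only [h1, h2]

theorem add_self_eq_zero_iff (h : IsR W a b c) {x y : F} (hP : W.Nonsingular x y) :
    Point.some x y hP + Point.some x y hP = 0 ↔ y = 0 := by
  constructor
  · intro h0
    by_contra hy
    have : y ≠ W.negY x y := by
      rw [h.negY]
      intro h1
      have : (2 : F) * y = 0 := by linear_combination h1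
      rcases mul_eq_zero.1 this with h2 | h2
      · exact h.two h2
      · exact hy h2
    rw [Point.add_self_of_Y_ne this] at h0
    exact Point.some_ne_zero _ h0
  · rintro rfl
    exact Point.add_self_of_Y_eq (by rw [h.negY]; ring)

/-- The sign at the root `a`. -/
noncomputable def sg (a : F) : W.Point → F
  | .zero => 1
  | .some x _ _ => if x = a then 1 else -1

/-- Doubling. -/
theorem double (h : IsR W a b c) {P : W.Point} (hP : P + P ≠ 0) :
    ∃ X Y hQ, P + P = Point.some X Y hQ ∧ rt a b c P ^ 2 = X - a ∧ rt b a c P ^ 2 = X - b ∧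
      rt c a b P ^ 2 = X - c ∧ rt a b c P * rt b a c P * rt c a b P = Y := by
  rcases P with _ | ⟨x, y, hxy⟩
  · exact absurd (add_zero (0 : W.Point)) hP
  have hy : y ≠ 0 := fun h0 => hP ((add_self_eq_zero_iff h hxy).2 h0)
  have h2y : (2 : F) * y ≠ 0 := mul_ne_zero h.two hy
  have h2 := h.two
  have hne : y ≠ W.negY x y := by
    rw [h.negY]
    intro h1
    apply h2y
    linear_combination h1
  have hs : W.slope x x y y =
      (3 * x ^ 2 - 2 * (a + b + c) * x + (a * b + a * c + b * c)) / (2 * y) := by
    rw [slope_of_Y_ne rfl hne, h.negY, h.a1, h.a2, h.a4]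
    congr 1 <;> ring
  have he := h.nonsingular.1 hxy
  have hX : W.addX x x (W.slope x x y y) = (rt a b c (Point.some x y hxy)) ^ 2 + a := by
    rw [hs, addX, h.a1, h.a2]
    simp only [rt]
    field_simp
    linear_combination 4 * (b + c - 2 * x) * he
  refine ⟨_, _, _, Point.add_self_of_Y_ne hne, by rw [hX]; ring, ?_, ?_, ?_⟩
  · rw [hX]
    simp only [rt]
    field_simp
    linear_combination 4 * (b - a) * he
  · rw [hX]
    simp only [rt]
    field_simp
    linear_combination 4 * (c - a) * he
  · rw [addY, negAddY, hX, h.negY, hs]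
    simp only [rt]
    field_simp
    linear_combination (8 * (y ^ 2 + (x - a) * (x - b) * (x - c)) - 4 * (x - a) *
      (3 * x ^ 2 - 2 * (a + b + c) * x + (a * b + a * c + b * c))) * he

/-- Translation by points of order two. -/
theorem translate (h : IsR W a b c) {P T : W.Point} (hP : P + P ≠ 0) (hT : T + T = 0) :
    rt a b c (P + T) = sg a T * rt a b c P := by
  rcases P with _ | ⟨x, y, hxy⟩
  · exact absurd (add_zero (0 : W.Point)) hP
  have hy : y ≠ 0 := fun h0 => hP ((add_self_eq_zero_iff h hxy).2 h0)
  have h2y : (2 : F) * y ≠ 0 := mul_ne_zero h.two hy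
  have h2 := h.two
  rcases T with _ | ⟨t, s, hab⟩
  · rw [← Point.zero_def, add_zero, Point.zero_def]
    simp [sg]
  obtain rfl : s = 0 := (add_self_eq_zero_iff h hab).1 hT
  have n1 := sub_ne_zero.2 h.nab
  have n2 := sub_ne_zero.2 h.nac
  have n3 := sub_ne_zero.2 h.nbc
  have m1 := sub_ne_zero.2 h.nab.symm
  have m2 := sub_ne_zero.2 h.nac.symm
  have m3 := sub_ne_zero.2 h.nbc.symm
  rcases root_of_tor h hab rfl with rfl | rfl | rfl
  · obtain ⟨hxa, hQ, hadd⟩ := add_tor h hxy hy hab
    rw [hadd]
    have e1 : sg t (Point.some t (0 : F) hab) = 1 := by simp [sg]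
    rw [e1]
    simp only [rt]
    field_simp
    ring
  · obtain ⟨hxa, hQ, hadd⟩ := add_tor h.swap hxy hy hab
    rw [hadd]
    have e1 : sg a (Point.some t (0 : F) hab) = -1 := by simp [sg, h.nab.symm]
    rw [e1]
    simp only [rt]
    field_simp
    ring
  · obtain ⟨hxa, hQ, hadd⟩ := add_tor h.rot hxy hy hab
    rw [hadd]
    have e1 : sg a (Point.some t (0 : F) hab) = -1 := by simp [sg, h.nac.symm]
    rw [e1]
    simp only [rt]
    field_simp
    ring

/-- Halving. -/
theorem halve (h : IsR W a b c) {X Y : F} (hQ : W.Nonsingular X Y) {u v w : F}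
    (hu : u ^ 2 = X - a) (hv : v ^ 2 = X - b) (hw : w ^ 2 = X - c) :
    ∃ P : W.Point, P + P = Point.some X Y hQ := by
  wlog hY : Y = u * v * w generalizing w with H
  · apply H (w := -w) (by rw [neg_sq, hw])
    have h1 : Y ^ 2 = (u * v * w) ^ 2 := by
      rw [h.nonsingular.1 hQ, mul_pow, mul_pow, hu, hv, hw]
    rcases sq_eq_sq_iff_eq_or_eq_neg.1 h1 with h2 | h2
    · exact absurd h2 hY
    · rw [h2]; ring
  have huv : u + v ≠ 0 := by
    intro h0
    have : u ^ 2 = v ^ 2 := by rw [show u = -v by linear_combination h0]; ring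
    rw [hu, hv] at this
    exact h.nab (by linear_combination -this)
  have huw : u + w ≠ 0 := by
    intro h0
    have : u ^ 2 = w ^ 2 := by rw [show u = -w by linear_combination h0]; ring
    rw [hu, hw] at this
    exact h.nac (by linear_combination -this)
  have hvw : v + w ≠ 0 := by
    intro h0
    have : v ^ 2 = w ^ 2 := by rw [show v = -w by linear_combination h0]; ring
    rw [hv, hw] at this
    exact h.nbc (by linear_combination -this)
  have e1 : X + u * v + u * w + v * w - a = (u + v) * (u + w) := by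
    linear_combination -hu
  have e2 : X + u * v + u * w + v * w - b = (v + u) * (v + w) := by
    linear_combination -hv
  have e3 : X + u * v + u * w + v * w - c = (w + u) * (w + v) := by
    linear_combination -hw
  have hP : W.Nonsingular (X + u * v + u * w + v * w) ((u + v) * (u + w) * (v + w)) := by
    rw [h.nonsingular, e1, e2, e3]; ring
  have hne : (u + v) * (u + w) * (v + w) ≠ 0 := mul_ne_zero (mul_ne_zero huv huw) hvw
  have hne2 : Point.some _ _ hP + Point.some _ _ hP ≠ 0 := fun h0 =>
    hne ((add_self_eq_zero_iff h hP).1 h0)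
  obtain ⟨X', Y', hQ', h1, h2, h3, h4, h5⟩ := double h hne2
  refine ⟨_, h1.trans ?_⟩
  have h2' := h.two
  have d1 : a - b = v ^ 2 - u ^ 2 := by rw [hu, hv]; ring
  have d2 : a - c = w ^ 2 - u ^ 2 := by rw [hu, hw]; ring
  have d3 : b - c = w ^ 2 - v ^ 2 := by rw [hv, hw]; ring
  have d1' : b - a = u ^ 2 - v ^ 2 := by rw [hu, hv]; ring
  have d2' : c - a = u ^ 2 - w ^ 2 := by rw [hu, hw]; ring
  have d3' : c - b = v ^ 2 - w ^ 2 := by rw [hv, hw]; ring
  have e0 : rt a b c (Point.some _ _ hP) = u := by
    simp only [rt]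
    rw [div_eq_iff (mul_ne_zero h.two hne), e1, d1, d2]
    ring
  have e1' : rt b a c (Point.some _ _ hP) = v := by
    simp only [rt]
    rw [div_eq_iff (mul_ne_zero h.two hne), e2, d1', d3]
    ring
  have e2' : rt c a b (Point.some _ _ hP) = w := by
    simp only [rt]
    rw [div_eq_iff (mul_ne_zero h.two hne), e3, d2', d3']
    ring
  rw [e0] at h2
  rw [e0, e1', e2', ← hY] at h5
  have hX : X' = X := by linear_combination hu - h2
  subst hX
  subst h5
  rfl

end Pool.Agent.TH344.SH
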