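import Pool.Agent.TH344.SH.Crv
import Pool.Agent.W309.TD.Kum

/-!
Signs, the action of homomorphisms, and cocycles with values in the points of order two on curves
`y ^ 2 = (x - a) (x - b) (x - c)`.
-/

set_option autoImplicit false
set_option linter.all false

open WeierstrassCurve WeierstrassCurve.Affine
open scoped Classical
open Pool.Agent.W309.TD (Pt act act_zero act_some act_inj act_act two_act rs incl rs_apply
  rs_act_incl exists_root compare au au_apply)

namespace Pool.Agent.TH344.SH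

section square

variable {F : Type*} [Field F] {W : Affine F} {a b c : F}

theorem sg_sq (a : F) (T : W.Point) : sg a T = 1 ∨ sg a T = -1 := by
  rcases T with _ | ⟨x, y, hxy⟩
  · left; rfl
  · simp only [sg]; split_ifs <;> simp

theorem sg_ne (a : F) (T : W.Point) : sg a T ≠ 0 := by
  rcases sg_sq a T with h | h <;> rw [h] <;> simp

theorem sg_zero (a : F) : sg a (0 : W.Point) = 1 := rfl

/-- The signs determine a point of order two. -/
theorem tor_ext (h : IsR W a b c) {S T : W.Point} (hS : S + S = 0) (hT : T + T = 0)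
    (e0 : sg a S = sg a T) (e1 : sg b S = sg b T) : S = T := by
  have h11 : (1 : F) ≠ -1 := by
    intro h'
    exact h.two (by linear_combination h')
  have key : ∀ {P : W.Point}, P + P = 0 → (P = 0 ∧ sg a P = 1 ∧ sg b P = 1) ∨
      (∃ hn, P = Point.some a 0 hn ∧ sg a P = 1 ∧ sg b P = -1) ∨
      (∃ hn, P = Point.some b 0 hn ∧ sg a P = -1 ∧ sg b P = 1) ∨
      (∃ hn, P = Point.some c 0 hn ∧ sg a P = -1 ∧ sg b P = -1) := by
    intro P hP
    rcases P with _ | ⟨x, y, hxy⟩
    · left; exact ⟨rfl, rfl, rfl⟩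
    · right
      obtain rfl : y = 0 := (add_self_eq_zero_iff h hxy).1 hP
      rcases root_of_tor h hxy rfl with rfl | rfl | rfl
      · left; exact ⟨hxy, rfl, by simp [sg], by simp [sg, h.nab]⟩
      · right; left; exact ⟨hxy, rfl, by simp [sg, h.nab.symm], by simp [sg]⟩
      · right; right; exact ⟨hxy, rfl, by simp [sg, h.nac.symm], by simp [sg, h.nbc.symm]⟩
  rcases key hS with ⟨a1, a2, a3⟩ | ⟨hn, a1, a2, a3⟩ | ⟨hn, a1, a2, a3⟩ | ⟨hn, a1, a2, a3⟩ <;>
  rcases key hT with ⟨b1, b2, b3⟩ | ⟨hn', b1, b2, b3⟩ | ⟨hn', b1, b2, b3⟩ | ⟨hn', b1, b2, b3⟩ <;>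
  rw [a2, b2] at e0 <;> rw [a3, b3] at e1 <;>
  first
  | exact absurd e0 h11
  | exact absurd e1 h11
  | exact absurd e0.symm h11
  | exact absurd e1.symm h11
  | (rw [a1, b1])

theorem halve_sep [IsSepClosed F] (h : IsR W a b c) (Q : W.Point) : ∃ P : W.Point, P + P = Q := by
  rcases Q with _ | ⟨x, y, hxy⟩
  · exact ⟨0, by rw [add_zero, Point.zero_def]⟩
  · haveI : NeZero ((2 : ℕ) : F) := ⟨by exact_mod_cast h.two⟩
    obtain ⟨u, hu⟩ := IsSepClosed.exists_pow_nat_eq (x - a) 2
    obtain ⟨v, hv⟩ := IsSepClosed.exists_pow_nat_eq (x - b) 2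
    obtain ⟨w, hw⟩ := IsSepClosed.exists_pow_nat_eq (x - c) 2
    exact halve h hxy hu hv hw

/-- the signs are multiplicative -/
theorem sg_add [IsSepClosed F] (h : IsR W a b c) {S T : W.Point} (hS : S + S = 0)
    (hT : T + T = 0) : sg a (S + T) = sg a S * sg a T := by
  have hn : W.Nonsingular b 0 := h.nonsingular.2 (by ring)
  obtain ⟨P, hP⟩ := halve_sep h (Point.some b 0 hn)
  have hP0 : P + P ≠ 0 := by rw [hP]; exact Point.some_ne_zero _
  have hr : rt a b c P ≠ 0 := by
    obtain ⟨X, Y, hQ, e1, e2, -⟩ := double h hP0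
    rw [hP] at e1
    have hX : X = b := (Point.some.inj e1).1.symm
    intro h0
    rw [h0, hX] at e2
    exact h.nab (by linear_combination e2)
  have hPS : (P + S) + (P + S) = P + P := by rw [add_add_add_comm, hS, add_zero]
  have hST : (S + T) + (S + T) = 0 := by rw [add_add_add_comm, hS, hT, add_zero]
  have a0 := translate h hP0 hS
  have b0 := translate h (P := P + S) (by rw [hPS]; exact hP0) hT
  have c0 := translate h hP0 hST
  rw [add_assoc, a0, c0] at b0
  apply mul_right_cancel₀ hr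
  rw [b0]; ring

end square

universe u

section action

variable {K Ω Ω' : Type u} [Field K] [Field Ω] [Field Ω'] [Algebra K Ω] [Algebra K Ω']
  (W : WeierstrassCurve K)

theorem rt_act (φ : Ω →ₐ[K] Ω') (a b c : Ω) (P : Pt W Ω) :
    rt (φ a) (φ b) (φ c) (act W φ P) = φ (rt a b c P) := by
  rcases P with _ | ⟨x, y, hxy⟩
  · rw [act_zero]; simp [rt]
  · obtain ⟨h, hh⟩ := act_some W φ hxy
    rw [hh]
    simp only [rt, map_div₀, map_sub, map_pow, map_mul, map_ofNat]

theorem sg_act (φ : Ω →ₐ[K] Ω') (a : Ω) (P : Pt W Ω) : sg (φ a) (act W φ P) = φ (sg a P) := by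
  rcases P with _ | ⟨x, y, hxy⟩
  · rw [act_zero]; simp [sg]
  · obtain ⟨h, hh⟩ := act_some W φ hxy
    rw [hh]
    have : φ x = φ a ↔ x = a := φ.injective.eq_iff
    simp only [sg, this]
    split_ifs <;> simp

end action

section tor

variable {K Ω : Type u} [Field K] [Field Ω] [Algebra K Ω] (W : WeierstrassCurve K) {a b c : K}

/-- The points of order two are rational. -/
theorem act_tor (hR : IsR (W.baseChange Ω).toAffine (algebraMap K Ω a) (algebraMap K Ω b)
    (algebraMap K Ω c)) (φ : Ω →ₐ[K] Ω) {T : Pt W Ω} (hT : T + T = 0) : act W φ T = T := by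
  apply tor_ext hR ((two_act W φ T).2 hT) hT
  · have := sg_act W φ (algebraMap K Ω a) T
    rw [φ.commutes] at this
    rw [this]
    rcases sg_sq (algebraMap K Ω a) T with h | h <;> rw [h] <;> simp
  · have := sg_act W φ (algebraMap K Ω b) T
    rw [φ.commutes] at this
    rw [this]
    rcases sg_sq (algebraMap K Ω b) T with h | h <;> rw [h] <;> simp

end tor

section loc

variable {K Ω F Ω' : Type u} [Field K] [Field Ω] [Algebra K Ω] [Field F]
  [Field Ω'] [Algebra K F] [Algebra F Ω'] [Algebra K Ω'] [IsScalarTower K F Ω'] [IsGalois F Ω']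
  (W : WeierstrassCurve K) {a b c : K}

/-- the square class of `x - a` at a point `Q` over `F` whose half `P` over `Ω'` is translated by
`T τ`, if `t` has the same character -/
theorem loc_sq (hR' : IsR (W.baseChange Ω').toAffine (algebraMap K Ω' a) (algebraMap K Ω' b)
    (algebraMap K Ω' c)) {T : (Ω' ≃ₐ[F] Ω') → Pt W Ω'}
    (hT2 : ∀ τ, T τ + T τ = 0) {P : Pt W Ω'} (hTP : ∀ τ, act W (rs K τ) P = P + T τ)
    (hP4 : (P + P) + (P + P) ≠ 0) {X Y : F}
    {hQ : (W.baseChange F).toAffine.Nonsingular X Y}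
    (hPQ : P + P = act W (incl K F Ω') (Point.some X Y hQ)) {t : Ω'} {d : K} (ht : t ≠ 0)
    (hd : t ^ 2 = algebraMap K Ω' d)
    (hσ : ∀ τ : Ω' ≃ₐ[F] Ω', τ t = sg (algebraMap K Ω' a) (T τ) * t) :
    IsSquare ((X - algebraMap K F a) * algebraMap K F d) := by
  have hP2 : P + P ≠ 0 := by
    intro h
    rw [h, add_zero] at hP4
    exact hP4 rfl
  obtain ⟨X', Y', hQ', e1, e2, -, -, e3⟩ := double hR' hP2
  obtain ⟨hn, hh⟩ := act_some W (incl K F Ω') hQ
  have hX : incl K F Ω' X = X' := by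
    rw [hPQ, hh] at e1
    exact (Point.some.inj e1).1
  have hY' : Y' ≠ 0 := by
    intro h0
    apply hP4
    rw [e1]
    exact (add_self_eq_zero_iff hR' hQ').2 h0
  have hr : rt (algebraMap K Ω' a) (algebraMap K Ω' b) (algebraMap K Ω' c) P ≠ 0 := by
    intro h0
    rw [h0] at e3
    exact hY' (by rw [← e3]; ring)
  have m0 : ∀ τ : Ω' ≃ₐ[F] Ω', τ (rt (algebraMap K Ω' a) (algebraMap K Ω' b)
      (algebraMap K Ω' c) P) = sg (algebraMap K Ω' a) (T τ) *
      rt (algebraMap K Ω' a) (algebraMap K Ω' b) (algebraMap K Ω' c) P := by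
    intro τ
    have := rt_act W (rs K τ) (algebraMap K Ω' a) (algebraMap K Ω' b) (algebraMap K Ω' c) P
    rw [(rs K τ).commutes, (rs K τ).commutes, (rs K τ).commutes, hTP,
      translate hR' hP2 (hT2 τ), rs_apply] at this
    exact this.symm
  obtain ⟨k, hk, q⟩ := compare (K := F) ht hr _ (fun τ => sg_ne _ _) hσ m0
  refine ⟨k * (X - algebraMap K F a), ?_⟩
  apply (algebraMap F Ω').injective
  have inj : algebraMap F Ω' (algebraMap K F a) = algebraMap K Ω' a :=
    (IsScalarTower.algebraMap_apply K F Ω' a).symm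
  have inj' : algebraMap F Ω' (algebraMap K F d) = algebraMap K Ω' d :=
    (IsScalarTower.algebraMap_apply K F Ω' d).symm
  have hX2 : algebraMap F Ω' X = X' := hX
  have w1 : algebraMap K Ω' d = algebraMap F Ω' k ^ 2 * (X' - algebraMap K Ω' a) := by
    rw [← hd, q, mul_pow, e2]
  rw [map_mul, map_mul, map_mul, map_sub, inj, inj', hX2, w1]
  ring

end loc

end Pool.Agent.TH344.SH
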