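import Pool.Agent.TH344.SH.Gal
import Pool.Agent.TH344.SH.Def
import Pool.Agent.W402.FK.RKS
import Pool.Agent.W309.TD.Des

/-!
Locally trivial cocycles with values in the points of order two and the 2-Selmer group of the
curves `y² = x³ + A x + B` with three integer roots.
-/

set_option autoImplicit false
set_option linter.all false

open WeierstrassCurve WeierstrassCurve.Affine
open scoped Classical
open Pool.Agent.W307.SE Pool.Agent.W307.RT
open Pool.Agent.W309.TD (Pt act act_zero act_some act_inj act_act two_act rs incl rs_apply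
  rs_act_incl exists_root compare au au_apply exists_restrict)

namespace Pool.Agent.TH344.SH

theorem galQB : IsGalois ℚ QB := by
  have h : @IsGalois ℚ _ QB _ (AlgebraicClosure.instAlgebra ℚ) := inferInstance
  convert h
  exact Subsingleton.elim _ _

/-- the factorization -/
def Fac (A B e1 e2 e3 : ℤ) : Prop :=
  ∀ x : ℤ, x ^ 3 + A * x + B = (x - e1) * (x - e2) * (x - e3)

lemma isR {A B e1 e2 e3 : ℤ} (hD : 4 * A ^ 3 + 27 * B ^ 2 ≠ 0) (h : Fac A B e1 e2 e3) (L : Type)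
    [Field L] [Algebra ℚ L] : IsR ((Sh A B).baseChange L).toAffine
      (algebraMap ℚ L e1) (algebraMap ℚ L e2) (algebraMap ℚ L e3) := by
  haveI : CharZero L := algebraRat.charZero L
  obtain ⟨hs, hA, hB⟩ := Pool.Agent.W402.FK.coef A B e1 e2 e3 h
  obtain ⟨d12, d13, d23⟩ := Pool.Agent.W402.FK.dist A B e1 e2 e3 hD h
  have hs' : (e1 : ℚ) + e2 + e3 = 0 := by exact_mod_cast congrArg (Int.cast : ℤ → ℚ) hs
  have inj : ∀ a b : ℤ, a ≠ b → algebraMap ℚ L (a : ℚ) ≠ algebraMap ℚ L (b : ℚ) := by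
    intro a b hab h0
    exact hab (by exact_mod_cast (algebraMap ℚ L).injective h0)
  refine ⟨?_, ?_, ?_, ?_, ?_, two_ne_zero, inj _ _ d12, inj _ _ d13, inj _ _ d23⟩
  · show algebraMap ℚ L 0 = 0
    exact map_zero _
  · show algebraMap ℚ L 0 = _
    rw [← map_add, ← map_add, hs', map_zero, neg_zero]
  · show algebraMap ℚ L 0 = 0
    exact map_zero _
  · show algebraMap ℚ L (A : ℚ) = _
    rw [hA]
    push_cast
    simp only [map_add, map_mul]
  · show algebraMap ℚ L (B : ℚ) = _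
    rw [hB]
    push_cast
    simp only [map_neg, map_mul]

/-- every root can be taken first -/
lemma fac_root {A B e1 e2 e3 : ℤ} (h : Fac A B e1 e2 e3) {e : ℤ} (he : e ^ 3 + A * e + B = 0) :
    ∃ e' e'' : ℤ, Fac A B e e' e'' := by
  rcases Pool.Agent.W402.FK.roots A B e1 e2 e3 h e he with rfl | rfl | rfl
  · exact ⟨e2, e3, h⟩
  · exact ⟨e1, e3, fun x => by rw [h x]; ring⟩
  · exact ⟨e1, e2, fun x => by rw [h x]; ring⟩

lemma fac_zero {A B e1 e2 e3 : ℤ} (h : Fac A B e1 e2 e3) : e1 ^ 3 + A * e1 + B = 0 := by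
  rw [h e1]; ring

/-- the squarefree integers attached to a cocycle -/
def Rep (A B : ℤ) (f : GQ → Points (Sh A B) QB) (d : ℤ → ℤ) : Prop :=
  (∀ e, Squarefree (d e)) ∧ (∀ e : ℤ, e ^ 3 + A * e + B ≠ 0 → d e = 1) ∧
  ∀ e : ℤ, e ^ 3 + A * e + B = 0 → ∃ t : QB, t ≠ 0 ∧ t ^ 2 = algebraMap ℚ QB (d e) ∧
    ∀ σ : GQ, σ t = sg (algebraMap ℚ QB (e : ℚ)) (f σ) * t

lemma exists_rep {A B e1 e2 e3 : ℤ} (hD : 4 * A ^ 3 + 27 * B ^ 2 ≠ 0) (h : Fac A B e1 e2 e3)
    {f : GQ → Points (Sh A B) QB} (hf : IsCocycle (Sh A B) f) (hf2 : ∀ σ, f σ + f σ = 0) :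
    ∃ d, Rep A B f d := by
  haveI := galQB
  have hadd : ∀ σ τ, f (σ * τ) = f σ + f τ := fun σ τ => by
    rw [hf.2]
    congr 1
    exact act_tor (Sh A B) (isR hD h QB) _ (hf2 τ)
  have key : ∀ e : ℤ, ∃ d : ℤ, Squarefree d ∧ (e ^ 3 + A * e + B ≠ 0 → d = 1) ∧
      (e ^ 3 + A * e + B = 0 → ∃ t : QB, t ≠ 0 ∧ t ^ 2 = algebraMap ℚ QB d ∧
        ∀ σ : GQ, σ t = sg (algebraMap ℚ QB (e : ℚ)) (f σ) * t) := by
    intro e
    by_cases he : e ^ 3 + A * e + B = 0
    · obtain ⟨e', e'', hfac⟩ := fac_root h he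
      have hR := isR hD hfac QB
      obtain ⟨s, a, hs0, hsa, hσ⟩ := exists_root (K := ℚ) (Ω := QB) two_ne_zero
        (fun σ => sg (algebraMap ℚ QB (e : ℚ)) (f σ)) (fun σ => sg_sq _ _) (fun σ τ => by
          show sg _ (f (σ * τ)) = sg _ (f σ) * sg _ (f τ)
          rw [hadd]
          exact sg_add hR (hf2 σ) (hf2 τ)) (hf.1.comp (sg (algebraMap ℚ QB (e : ℚ))))
      have ha0 : a ≠ 0 := by
        rintro rfl
        rw [map_zero] at hsa
        exact pow_ne_zero 2 hs0 hsa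
      obtain ⟨d, hd1, r, hr⟩ := Pool.Agent.W214.RK2.exists_rep a ha0
      have hd0 : (d : ℚ) ≠ 0 := by exact_mod_cast hd1.ne_zero
      have hr0 : r ≠ 0 := by
        rintro rfl
        rw [mul_zero] at hr
        exact mul_ne_zero ha0 hd0 hr
      refine ⟨d, hd1, fun h => absurd he h, fun _ => ⟨algebraMap ℚ QB r / s, ?_, ?_, ?_⟩⟩
      · exact div_ne_zero ((map_ne_zero _).2 hr0) hs0
      · rw [div_pow, hsa, div_eq_iff ((map_ne_zero _).2 ha0), ← map_pow, ← map_mul]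
        congr 1
        rw [pow_two, ← hr, mul_comm]
      · intro σ
        rw [map_div₀, hσ, σ.commutes]
        rcases sg_sq (algebraMap ℚ QB (e : ℚ)) (f σ) with h | h <;> rw [h]
        · rw [one_mul, one_mul]
        · rw [neg_one_mul, neg_one_mul, div_neg]
    · exact ⟨1, squarefree_one, fun _ => rfl, fun h => absurd h he⟩
  choose d h1 h2 h3 using key
  exact ⟨d, h1, h2, h3⟩

lemma rep_inj {A B e1 e2 e3 : ℤ} (hD : 4 * A ^ 3 + 27 * B ^ 2 ≠ 0) (h : Fac A B e1 e2 e3)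
    {f f' : GQ → Points (Sh A B) QB} (hf2 : ∀ σ, f σ + f σ = 0) (hf2' : ∀ σ, f' σ + f' σ = 0)
    {d : ℤ → ℤ} (hd : Rep A B f d) (hd' : Rep A B f' d) : f = f' := by
  have key : ∀ e : ℤ, e ^ 3 + A * e + B = 0 → ∀ σ, sg (algebraMap ℚ QB (e : ℚ)) (f σ) =
      sg (algebraMap ℚ QB (e : ℚ)) (f' σ) := by
    intro e he σ
    obtain ⟨t, ht, htd, hσ⟩ := hd.2.2 e he
    obtain ⟨t', ht', htd', hσ'⟩ := hd'.2.2 e he
    rw [← htd'] at htd
    have h1 := hσ σ
    have h2 := hσ' σ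
    rcases sq_eq_sq_iff_eq_or_eq_neg.1 htd with rfl | rfl
    · rw [h1] at h2
      exact mul_right_cancel₀ ht h2
    · rw [map_neg, h2] at h1
      have h3 : sg (algebraMap ℚ QB (e : ℚ)) (f' σ) * t' =
        sg (algebraMap ℚ QB (e : ℚ)) (f σ) * t' := by linear_combination -h1
      exact (mul_right_cancel₀ ht' h3).symm
  funext σ
  have hfac2 : Fac A B e2 e1 e3 := fun x => by rw [h x]; ring
  exact tor_ext (isR hD h QB) (hf2 σ) (hf2' σ) (key e1 (fac_zero h) σ) (key e2 (fac_zero hfac2) σ)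

/-- the local step -/
lemma rep_loc {A B e1 e2 e3 : ℤ} (hD : 4 * A ^ 3 + 27 * B ^ 2 ≠ 0) (h : Fac A B e1 e2 e3)
    {f : GQ → Points (Sh A B) QB} (hf2 : ∀ σ, f σ + f σ = 0) {d : ℤ → ℤ} (hd : Rep A B f d)
    (K : Type) [Field K] [Algebra ℚ K] (hl : LocallyTrivial (Sh A B) K f)
    (S : Pt (Sh A B) K) (hS : (S + S) + (S + S) ≠ 0) : LocR K A B d := by
  have hG : IsGalois K (AlgebraicClosure K) := by
    haveI := algebraRat.charZero K
    infer_instance
  have hGQ : IsGalois ℚ QB := galQB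
  obtain ⟨ι⟩ : Nonempty (QB →ₐ[ℚ] AlgebraicClosure K) := ⟨IsAlgClosed.lift⟩
  obtain ⟨P0, hP0⟩ := hl ι
  choose res hres using exists_restrict (K := ℚ) (Ω := QB) (F := K) (Ω' := AlgebraicClosure K) ι
  set T : (AlgebraicClosure K ≃ₐ[K] AlgebraicClosure K) → Pt (Sh A B) (AlgebraicClosure K) :=
    fun τ => act (Sh A B) ι (f (res τ)) with hT
  have hT2 : ∀ τ, T τ + T τ = 0 := fun τ => (two_act (Sh A B) ι _).2 (hf2 _)
  have hTP0 : ∀ τ, act (Sh A B) (rs ℚ τ) P0 = P0 + T τ := by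
    intro τ
    have h1 : T τ = act (Sh A B) (rs ℚ τ) P0 - P0 := hP0 τ (res τ) (hres τ)
    rw [h1]; abel
  obtain ⟨P, hP4, hTP⟩ : ∃ P : Pt (Sh A B) (AlgebraicClosure K), (P + P) + (P + P) ≠ 0 ∧
      ∀ τ : AlgebraicClosure K ≃ₐ[K] AlgebraicClosure K,
        act (Sh A B) (rs ℚ τ) P = P + T τ := by
    by_cases h4 : (P0 + P0) + (P0 + P0) = 0
    · refine ⟨P0 + act (Sh A B) (incl ℚ K (AlgebraicClosure K)) S, ?_, fun τ => ?_⟩
      · intro h0
        apply hS
        apply act_inj (Sh A B) (incl ℚ K (AlgebraicClosure K))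
        rw [map_add, map_add, map_zero, ← h0]
        have : ∀ a s : Pt (Sh A B) (AlgebraicClosure K), (a + a) + (a + a) = 0 →
            s + s + (s + s) = a + s + (a + s) + (a + s + (a + s)) := by
          intro a s ha
          have e : a + s + (a + s) + (a + s + (a + s)) = ((a + a) + (a + a)) +
            (s + s + (s + s)) := by abel
          rw [e, ha, zero_add]
        exact this _ _ h4
      · rw [map_add, hTP0, rs_act_incl]
        abel
    · exact ⟨P0, h4, hTP0⟩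
  have hPP : ∀ τ : AlgebraicClosure K ≃ₐ[K] AlgebraicClosure K,
      act (Sh A B) (rs ℚ τ) (P + P) = P + P := by
    intro τ
    rw [map_add, hTP, add_add_add_comm, hT2, add_zero]
  obtain ⟨Q, hQ⟩ := Pool.Agent.W309.TD.fixed_point (K := ℚ) (F := K) (Sh A B) (P + P) hPP
  rcases Q with _ | ⟨X, Y, hXY⟩
  · exfalso
    have h0 : P + P = 0 := hQ.symm
    rw [h0] at hP4
    exact hP4 (add_zero _)
  have hY : Y ≠ 0 := by
    intro h0
    apply hP4
    rw [← hQ, ← map_add]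
    have := (add_self_eq_zero_iff (isR hD h K) hXY).2 h0
    rw [this, map_zero]
  have hfK := (isR hD h K).nonsingular.1 hXY
  rw [map_intCast, map_intCast, map_intCast] at hfK
  refine ⟨X, Y, hY, ?_, fun e he => ?_⟩
  · rw [hfK, Pool.Agent.W402.FK.cub K A B e1 e2 e3 h]
  · obtain ⟨e', e'', hfac⟩ := fac_root h he
    obtain ⟨t, ht, htd, hσ⟩ := hd.2.2 e he
    have := loc_sq (Sh A B) (K := ℚ) (F := K) (Ω' := AlgebraicClosure K)
      (isR hD hfac (AlgebraicClosure K)) hT2 hTP hP4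
      hQ.symm (t := ι t) (d := (d e : ℚ)) ((map_ne_zero ι).2 ht)
      (by rw [← map_pow, htd, ι.commutes]) (fun τ => by
        have h1 := congrArg (fun φ : QB →ₐ[ℚ] AlgebraicClosure K => φ t) (hres τ)
        have h2 : τ (ι t) = ι ((res τ) t) := h1
        have h3 := sg_act (Sh A B) ι (algebraMap ℚ QB (e : ℚ)) (f (res τ))
        rw [ι.commutes] at h3
        rw [h2, hσ, map_mul, ← h3])
    rwa [map_intCast, map_intCast] at this

/-- the points of order dividing two -/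
lemma tor2_finite {F : Type} [Field F] {W : Affine F} {a b c : F} (hR : IsR W a b c) :
    {T : W.Point | T + T = 0}.Finite := by
  apply Set.Finite.of_injOn (f := fun T : W.Point => (sg a T, sg b T))
    (t := ({1, -1} : Set F) ×ˢ ({1, -1} : Set F))
  · intro T _
    rw [Set.mem_prod]
    constructor
    · rcases sg_sq a T with h | h <;> simp [h]
    · rcases sg_sq b T with h | h <;> simp [h]
  · intro S hS T hT hST
    exact tor_ext hR hS hT (Prod.ext_iff.1 hST).1 (Prod.ext_iff.1 hST).2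
  · exact (Set.toFinite _).prod (Set.toFinite _)

lemma tor4_finite {F : Type} [Field F] {W : Affine F} {a b c : F} (hR : IsR W a b c) :
    {S : W.Point | (S + S) + (S + S) = 0}.Finite := by
  apply Set.Finite.of_finite_fibers (f := fun S : W.Point => S + S)
  · apply (tor2_finite hR).subset
    rintro _ ⟨S, hS, rfl⟩
    exact hS
  · intro x hx
    obtain ⟨S0, -, hS0⟩ := hx
    apply Set.Finite.of_injOn (f := fun S : W.Point => S - S0) (t := {T : W.Point | T + T = 0})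
    · rintro S ⟨-, hS⟩
      have h1 : S + S = x := hS
      have h2 : S0 + S0 = x := hS0
      show (S - S0) + (S - S0) = 0
      rw [sub_add_sub_comm, h1, h2, sub_self]
    · intro S _ S' _ h
      exact sub_left_injective h
    · exact tor2_finite hR

/-- a point that is not killed by four -/
lemma exists_S {A B e1 e2 e3 : ℤ} (hD : 4 * A ^ 3 + 27 * B ^ 2 ≠ 0) (h : Fac A B e1 e2 e3)
    (K : Type) [Field K] [Algebra ℚ K] (x y : ℕ → K) (hx : Function.Injective x)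
    (hxy : ∀ n, y n ^ 2 = (x n - e1) * (x n - e2) * (x n - e3)) :
    ∃ S : Pt (Sh A B) K, (S + S) + (S + S) ≠ 0 := by
  have hR := isR hD h K
  by_contra hcon
  push Not at hcon
  have hns : ∀ n, ((Sh A B).baseChange K).toAffine.Nonsingular (x n) (y n) := by
    intro n
    rw [hR.nonsingular, map_intCast, map_intCast, map_intCast]
    exact hxy n
  have h1 := (tor4_finite hR).subset (fun S _ => hcon S : (Set.univ : Set _) ⊆ _)
  have h2 : (Set.range (fun n => (Point.some (x n) (y n) (hns n) :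
      ((Sh A B).baseChange K).toAffine.Point))).Infinite := by
    apply Set.infinite_range_of_injective
    intro n m hnm
    exact hx (Point.some.inj hnm).1
  exact h2 (h1.subset (Set.subset_univ _))

lemma exists_S_real {A B e1 e2 e3 : ℤ} (hD : 4 * A ^ 3 + 27 * B ^ 2 ≠ 0)
    (h : Fac A B e1 e2 e3) : ∃ S : Pt (Sh A B) ℝ, (S + S) + (S + S) ≠ 0 := by
  set x : ℕ → ℝ := fun n => |(e1 : ℝ)| + |(e2 : ℝ)| + |(e3 : ℝ)| + n with hx
  have hp : ∀ n, 0 ≤ (x n - e1) * (x n - e2) * (x n - e3) := by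
    intro n
    have a1 := le_abs_self (e1 : ℝ)
    have a2 := le_abs_self (e2 : ℝ)
    have a3 := le_abs_self (e3 : ℝ)
    have b1 := abs_nonneg (e1 : ℝ)
    have b2 := abs_nonneg (e2 : ℝ)
    have b3 := abs_nonneg (e3 : ℝ)
    have b4 : (0 : ℝ) ≤ n := Nat.cast_nonneg n
    have p1 : 0 ≤ x n - e1 := by simp only [hx]; linarith
    have p2 : 0 ≤ x n - e2 := by simp only [hx]; linarith
    have p3 : 0 ≤ x n - e3 := by simp only [hx]; linarith
    positivity
  refine exists_S hD h ℝ x (fun n => Real.sqrt ((x n - e1) * (x n - e2) * (x n - e3))) ?_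
    (fun n => Real.sq_sqrt (hp n))
  intro n m hnm
  simp only [hx] at hnm
  exact_mod_cast (add_left_cancel hnm)

lemma hensn (p : ℕ) [hp : Fact p.Prime] (e : ℤ) (n : ℕ) :
    ∃ r : ℚ_[p], r ^ 2 = 1 / (2 * p ^ (n + 1)) ^ 2 - e := by
  obtain ⟨z, hz⟩ := Pool.Agent.W402.FK.hens p (-(p ^ (2 * n + 1) * e) : ℤ_[p])
  have hp0 : (p : ℚ_[p]) ≠ 0 := by exact_mod_cast hp.out.ne_zero
  have h1 := congrArg (fun w : ℤ_[p] => (w : ℚ_[p])) hz
  have hc4 : ((4 : ℤ_[p]) : ℚ_[p]) = 4 := rfl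
  push_cast at h1
  rw [hc4] at h1
  refine ⟨(z : ℚ_[p]) / (2 * p ^ (n + 1)), ?_⟩
  rw [div_pow, pow_two (z : ℚ_[p]), ← h1]
  field_simp
  ring

lemma exists_S_padic {A B e1 e2 e3 : ℤ} (hD : 4 * A ^ 3 + 27 * B ^ 2 ≠ 0)
    (h : Fac A B e1 e2 e3) (p : ℕ) [hp : Fact p.Prime] :
    ∃ S : Pt (Sh A B) ℚ_[p], (S + S) + (S + S) ≠ 0 := by
  choose r1 q1 using hensn p e1
  choose r2 q2 using hensn p e2
  choose r3 q3 using hensn p e3
  refine exists_S hD h ℚ_[p] (fun n => 1 / (2 * p ^ (n + 1)) ^ 2) (fun n => r1 n * r2 n * r3 n) ?_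
    (fun n => by rw [← q1, ← q2, ← q3]; ring)
  intro n m hnm
  have hp0 : (p : ℚ) ≠ 0 := by exact_mod_cast hp.out.ne_zero
  have h1 : ((1 / (2 * p ^ (n + 1)) ^ 2 : ℚ) : ℚ_[p]) = ((1 / (2 * p ^ (m + 1)) ^ 2 : ℚ) : ℚ_[p]) := by
    push_cast
    exact hnm
  have h2 : (1 / (2 * p ^ (n + 1)) ^ 2 : ℚ) = 1 / (2 * p ^ (m + 1)) ^ 2 := by exact_mod_cast h1
  rw [one_div, one_div, inv_inj, mul_pow, mul_pow] at h2
  have h3 : ((p : ℚ) ^ (n + 1)) ^ 2 = ((p : ℚ) ^ (m + 1)) ^ 2 := by linarith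
  have h4 : (p ^ (n + 1)) ^ 2 = (p ^ (m + 1)) ^ 2 := by exact_mod_cast h3
  have h5 : p ^ (n + 1) = p ^ (m + 1) := Nat.pow_left_injective (n := 2) (by norm_num) h4
  have h6 := Nat.pow_right_injective hp.out.two_le h5
  omega

/-- the cocycles with values in the points of order two that are trivial at all places give
elements of the 2-Selmer group -/
lemma rep_sel {A B e1 e2 e3 : ℤ} (hD : 4 * A ^ 3 + 27 * B ^ 2 ≠ 0) (h : Fac A B e1 e2 e3)
    {f : GQ → Points (Sh A B) QB} (hf : IsShaCocycle (Sh A B) f) (hf2 : ∀ σ, f σ + f σ = 0)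
    {d : ℤ → ℤ} (hd : Rep A B f d) : d ∈ SelR A B := by
  refine ⟨hd.1, hd.2.1, ?_, ?_⟩
  · obtain ⟨S, hS⟩ := exists_S_real hD h
    exact rep_loc hD h hf2 hd ℝ hf.2.2 S hS
  · intro p _
    obtain ⟨S, hS⟩ := exists_S_padic hD h p
    exact rep_loc hD h hf2 hd ℚ_[p] (hf.2.1 p) S hS

end Pool.Agent.TH344.SH
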